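import Pool.Agent.Y171.CE.Stm

/-!
# CE-RET0: return sum with the lamps (project CE of helper171)
-/

set_option autoImplicit false

open Polynomial Matrix

namespace Pool.Agent.Y930.CE

open Pool.Agent.Y171.CE

/-- The entries of a product of steps in `R` are the values of the entries of the product of
polynomial steps. -/
theorem pw_aeval {p : ℕ} {R : Type} [CommRing R] [Algebra (ZMod p) R] (x : R) (l : List (NilT p))
    (i j : Fin 2) : (pw x l).1 i j = aeval x ((pw (X : (ZMod p)[X]) l).1 i j) := by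
  induction l generalizing i j with
  | nil =>
    change (1 : Matrix (Fin 2) (Fin 2) R) i j = aeval x ((1 : Matrix (Fin 2) (Fin 2) (ZMod p)[X]) i j)
    rw [Matrix.one_apply, Matrix.one_apply]
    split_ifs <;> simp
  | cons N l ih =>
    have e1 : pw x (N :: l) = st x N * pw x l := rfl
    have e2 : pw (X : (ZMod p)[X]) (N :: l) = st X N * pw X l := rfl
    rw [e1, e2]
    have e3 : (st x N * pw x l).1 i j = ∑ t, (st x N).1 i t * (pw x l).1 t j :=
      Matrix.mul_apply
    have e4 : (st (X : (ZMod p)[X]) N * pw X l).1 i j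
        = ∑ t, (st (X : (ZMod p)[X]) N).1 i t * (pw X l).1 t j :=
      Matrix.mul_apply
    rw [e3, e4, map_sum]
    refine Finset.sum_congr rfl fun t _ => ?_
    rw [ih, map_mul]
    congr 1
    fin_cases i <;> fin_cases t <;> simp [st] <;> exact mul_comm _ _

theorem natDegree_le_dg {p : ℕ} (γ : SL2 (ZMod p)[X]) (i j : Fin 2) :
    (γ.1 i j).natDegree ≤ dg γ := by
  unfold dg
  refine le_trans ?_ (Finset.le_sup (f := fun i : Fin 2 =>
    Finset.univ.sup (fun j : Fin 2 => (γ.1 i j).natDegree)) (Finset.mem_univ i))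
  exact Finset.le_sup (f := fun j : Fin 2 => (γ.1 i j).natDegree) (Finset.mem_univ j)

theorem eq_one_of_lt {p k : ℕ} [Fact p.Prime] {F : Type} [Field F] [Fintype F]
    [Algebra (ZMod p) F] {x : F} (hG : Good p k F x) (l : List (NilT p)) (h : pw x l = 1)
    (hd : dg (pw (X : (ZMod p)[X]) l) < k) : pw (X : (ZMod p)[X]) l = 1 := by
  obtain ⟨f, hf, hfd⟩ := hG.poly
  refine Subtype.ext ?_
  change (pw (X : (ZMod p)[X]) l).1 = 1
  ext1 i j
  have h1 : aeval x ((pw (X : (ZMod p)[X]) l).1 i j - (1 : Matrix (Fin 2) (Fin 2) (ZMod p)[X]) i j) = 0 := by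
    rw [map_sub, ← pw_aeval, h]
    change (1 : Matrix (Fin 2) (Fin 2) F) i j - _ = 0
    rw [Matrix.one_apply, Matrix.one_apply]
    split_ifs <;> simp
  rw [hfd] at h1
  have h2 := Polynomial.eq_zero_of_dvd_of_natDegree_lt h1 (by
    rw [hf]
    refine lt_of_le_of_lt (natDegree_sub_le _ _) (max_lt ?_ ?_)
    · exact lt_of_le_of_lt (natDegree_le_dg _ i j) hd
    · rw [Matrix.one_apply]
      have := hG.one_le
      split_ifs <;> simp <;> omega)
  exact sub_eq_zero.1 h2

open Classical in
theorem ret0 (h1 : S_RETQ) (h2 : S_RL) (h3 : S_SPAN) : S_RET0 := by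
  intro p _ k F _ _ _ _ x hG L hL c hc hck
  have hp0 : (0 : ℝ) < p := by exact_mod_cast (Fact.out : p.Prime).pos
  have hk : 1 ≤ k := hG.one_le
  -- the two counts
  have c1 : ∀ N : ℕ, N = 2 * (2 * k) →
      (Nat.card {h : Fin N → NilT p // pw x (List.ofFn h) = 1} : ℝ) * (p : ℝ) ^ (3 * k)
        ≤ 17 * (4 * k + 1) * 256 ^ (2 * k) * p ^ 3 * p ^ (8 * k) := by
    rintro N rfl
    have h := h1 p k F x hG (2 * k) (by omega)
    have h' : ((Nat.card {h : Fin (2 * (2 * k)) → NilT p // pw x (List.ofFn h) = 1} * p ^ (3 * k)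
      : ℕ) : ℝ) ≤ ((17 * (2 * (2 * k) + 1) * 256 ^ (2 * k) * p ^ 3 * p ^ (4 * (2 * k)) : ℕ) : ℝ) := by
      exact_mod_cast h
    push_cast at h'
    refine h'.trans (le_of_eq ?_)
    rw [show 4 * (2 * k) = 8 * k by ring]
    ring
  have c2 : ∀ N : ℕ, N = 2 * (2 * k) →
      (Nat.card {h : Fin N → NilT p // pw (X : (ZMod p)[X]) (List.ofFn h) = 1 ∧
        dg (pw (X : (ZMod p)[X]) ((List.ofFn h).take (2 * k))) < c} : ℝ)
        ≤ (p : ℝ) ^ (4 * c) * ((4 * p) ^ (2 * k)) ^ 2 := by
    rintro N rfl
    exact_mod_cast h2 p (2 * k) c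
  have c1' := c1 (4 * k) (by ring)
  have c2' := c2 (4 * k) (by ring)
  -- every term
  have term : ∀ h : Fin (4 * k) → NilT p,
      (if pw x (List.ofFn h) = 1 then
        1 / (Nat.card (US L ((List.ofFn h).map (st x))) : ℝ) else 0)
      ≤ (if pw x (List.ofFn h) = 1 then 1 / (p : ℝ) ^ c else 0)
        + (if pw (X : (ZMod p)[X]) (List.ofFn h) = 1 ∧
        dg (pw (X : (ZMod p)[X]) ((List.ofFn h).take (2 * k))) < c then 1 else 0) := by
    intro h
    by_cases hP : pw x (List.ofFn h) = 1
    · rw [if_pos hP, if_pos hP]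
      by_cases hA : ∃ m, c ≤ dg (pw (X : (ZMod p)[X]) ((List.ofFn h).take m)) + 1
      · obtain ⟨m, hm⟩ := hA
        have hLc : lampL (p := p) x 1 c ≤ L := by
          refine le_trans (le_of_eq ?_) hL
          unfold lampL
          congr 1
          ext v
          constructor
          · rintro ⟨i, hi, e, he⟩
            have hi0 : i = 0 := by omega
            subst hi0
            exact ⟨0, hi, e, by simpa using he⟩
          · rintro ⟨i, hi, e, he⟩
            have hi0 : i = 0 := by omega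
            subst hi0
            exact ⟨0, hi, e, by simpa using he⟩
        have h4 := h3 p k F x hG L 1 c le_rfl hc (by omega) hLc (List.ofFn h) m hm
        rw [one_mul] at h4
        have h5 : (p : ℝ) ^ c ≤ (Nat.card (US L ((List.ofFn h).map (st x))) : ℝ) := by
          exact_mod_cast h4
        have h6 : 1 / (Nat.card (US L ((List.ofFn h).map (st x))) : ℝ) ≤ 1 / (p : ℝ) ^ c :=
          one_div_le_one_div_of_le (by positivity) h5
        refine h6.trans (le_add_of_nonneg_right ?_)
        split_ifs <;> norm_num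
      · push Not at hA
        have h7 := hA (2 * k)
        have h8 := hA (4 * k)
        rw [List.take_of_length_le (by simp)] at h8
        have h9 := eq_one_of_lt hG _ hP (by omega)
        rw [if_pos ⟨h9, by omega⟩]
        have h10 : 1 / (Nat.card (US L ((List.ofFn h).map (st x))) : ℝ) ≤ 1 := by
          have : 1 ≤ Nat.card (US L ((List.ofFn h).map (st x))) := Nat.card_pos
          have h11 : (1 : ℝ) ≤ (Nat.card (US L ((List.ofFn h).map (st x))) : ℝ) := by
            exact_mod_cast this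
          exact (div_le_one (by linarith)).2 h11
        have : (0 : ℝ) ≤ 1 / (p : ℝ) ^ c := by positivity
        linarith
    · rw [if_neg hP, if_neg hP, zero_add]
      split_ifs <;> norm_num
  refine (Finset.sum_le_sum fun h _ => term h).trans ?_
  rw [Finset.sum_add_distrib]
  have s1 : ∑ h : Fin (4 * k) → NilT p, (if pw x (List.ofFn h) = 1 then 1 / (p : ℝ) ^ c else 0)
      = (Nat.card {h : Fin (4 * k) → NilT p // pw x (List.ofFn h) = 1} : ℝ) / (p : ℝ) ^ c := by
    rw [← Finset.sum_filter, Finset.sum_const, nsmul_eq_mul, Nat.card_eq_fintype_card,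
      Fintype.card_subtype, mul_one_div]
  have s2 : ∑ h : Fin (4 * k) → NilT p, (if pw (X : (ZMod p)[X]) (List.ofFn h) = 1 ∧
        dg (pw (X : (ZMod p)[X]) ((List.ofFn h).take (2 * k))) < c then (1 : ℝ) else 0)
      = (Nat.card {h : Fin (4 * k) → NilT p // pw (X : (ZMod p)[X]) (List.ofFn h) = 1 ∧
        dg (pw (X : (ZMod p)[X]) ((List.ofFn h).take (2 * k))) < c} : ℝ) := by
    rw [← Finset.sum_filter, Finset.sum_const, nsmul_eq_mul, Nat.card_eq_fintype_card,
      Fintype.card_subtype, mul_one]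
  refine add_le_add ?_ ?_
  · refine le_trans (le_of_eq s1) ?_
    rw [div_le_div_iff₀ (by positivity) (by positivity)]
    calc _ = ((Nat.card {h : Fin (4 * k) → NilT p // pw x (List.ofFn h) = 1} : ℝ)
          * (p : ℝ) ^ (3 * k)) * (p : ℝ) ^ c := by ring
      _ ≤ _ := by gcongr
  · exact le_trans (le_of_eq s2) c2'

end Pool.Agent.Y930.CE
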